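import Pool.Agent.H20.SL.Defs2

set_option autoImplicit false

open Topology Ordinal Cardinal Filter

namespace Pool.Agent.H33.SL.BIU

open Pool.Agent.H20.SL

/-- iteration of a function from `0` -/
def pp (e : ℕ → ℕ) : ℕ → ℕ
  | 0 => 0
  | k + 1 => e (pp e k)

theorem pp_lt (e : ℕ → ℕ) (he : ∀ n, n < e n) : StrictMono (pp e) :=
  strictMono_nat_of_lt_succ fun k => he (pp e k)

open Classical in
/-- the binary sequence: `true` on the even intervals -/
noncomputable def xx (e : ℕ → ℕ) (n : ℕ) : Bool :=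
  decide (∃ k, Even k ∧ pp e k ≤ n ∧ n < pp e (k + 1))

theorem xx_eq (e : ℕ → ℕ) (he : ∀ n, n < e n) (k n : ℕ) (h1 : pp e k ≤ n)
    (h2 : n < pp e (k + 1)) : xx e n = true ↔ Even k := by
  have h0 : xx e n = true ↔ ∃ k, Even k ∧ pp e k ≤ n ∧ n < pp e (k + 1) := by
    simp [xx]
  rw [h0]
  constructor
  · rintro ⟨j, hj, h3, h4⟩
    have hm := pp_lt e he
    have h5 : j < k + 1 := hm.lt_iff_lt.1 (lt_of_le_of_lt h3 h2)
    have h6 : k < j + 1 := hm.lt_iff_lt.1 (lt_of_le_of_lt h1 h4)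
    have : j = k := by omega
    rwa [← this]
  · intro hk
    exact ⟨k, hk, h1, h2⟩

/-- the main property -/
theorem avoid (e f g : ℕ → ℕ) (he : ∀ n, n < e n) (hg : StrictMono g)
    (h1 : ∀ᶠ n in atTop, g (n + 1) ≤ f n) (h2 : ∀ᶠ n in atTop, f n ≤ e n) (v : Bool) :
    ¬ ∀ k, ∃ n, g k ≤ n ∧ n < g (k + 1) ∧ xx e n = v := by
  intro hall
  obtain ⟨N, hN⟩ := eventually_atTop.1 (h1.and h2)
  have hm := pp_lt e he
  -- an index of the wrong parity
  obtain ⟨k, hk, hpar⟩ : ∃ k, N ≤ k ∧ (v = true ↔ ¬ Even k) := by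
    cases v
    · refine ⟨2 * N, by omega, ?_⟩
      simp
    · refine ⟨2 * N + 1, by omega, ?_⟩
      simp [Nat.even_add_one]
  obtain ⟨n, hn1, hn2, hn3⟩ := hall (pp e k)
  have hNk : N ≤ pp e k := hk.trans (hm.le_apply)
  obtain ⟨h3, h4⟩ := hN _ hNk
  have h5 : pp e k ≤ n := le_trans hg.le_apply hn1
  have h6 : n < pp e (k + 1) := lt_of_lt_of_le hn2 (h3.trans h4)
  have h7 := xx_eq e he k n h5 h6
  rw [hn3] at h7
  tauto

/-- a function which grows faster than countably many functions -/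
theorem exists_dom {K : Type} (d : K → ℕ → ℕ) (S : Set K) (hS : S.Countable) :
    ∃ e : ℕ → ℕ, (∀ n, n < e n) ∧ ∀ b ∈ S, ∀ᶠ n in atTop, d b n ≤ e n := by
  rcases S.eq_empty_or_nonempty with h0 | h0
  · subst h0
    exact ⟨fun n => n + 1, fun n => Nat.lt_succ_self n, fun b hb => absurd hb (by simp)⟩
  obtain ⟨s, hs⟩ := hS.exists_eq_range h0
  refine ⟨fun n => n + 1 + ∑ i ∈ Finset.range (n + 1), d (s i) n, fun n => by
    show n < n + 1 + ∑ i ∈ Finset.range (n + 1), d (s i) n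
    omega, ?_⟩
  intro b hb
  rw [hs] at hb
  obtain ⟨i, rfl⟩ := hb
  filter_upwards [eventually_ge_atTop i] with n hn
  have : d (s i) n ≤ ∑ i ∈ Finset.range (n + 1), d (s i) n :=
    Finset.single_le_sum (f := fun i => d (s i) n) (fun _ _ => Nat.zero_le _)
      (Finset.mem_range.2 (by omega))
  omega

theorem biu : T_BIU := by
  intro D hD hcard
  classical
  let K : Type := (ℵ₁ : Cardinal.{0}).ord.ToType
  have hK : #K = ℵ₁ := Cardinal.mk_ord_toType _
  have hKu : ¬ Countable K := by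
    intro h
    have h1 : #K ≤ ℵ₀ := Cardinal.mk_le_aleph0_iff.2 h
    rw [hK] at h1
    exact absurd h1 (not_le.2 Cardinal.aleph0_lt_aleph_one)
  have hIio : ∀ a : K, (Set.Iio a).Countable := by
    intro a
    have h1 : #(Set.Iio a) < ℵ₁ := Cardinal.mk_Iio_ord_toType a
    rw [← Cardinal.le_aleph0_iff_set_countable]
    rw [← Order.lt_succ_iff, Cardinal.succ_aleph0]
    exact h1
  have hIic : ∀ a : K, (Set.Iic a).Countable := by
    intro a
    have : Set.Iic a = insert a (Set.Iio a) := by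
      ext z
      simp only [Set.mem_Iic, Set.mem_insert_iff, Set.mem_Iio]
      exact le_iff_eq_or_lt
    rw [this]
    exact (hIio a).insert a
  obtain ⟨g0, hg0, _⟩ := hD (fun _ => 0)
  haveI : Nonempty D := ⟨⟨g0, hg0⟩⟩
  have hle : #D ≤ #K := by rw [hK]; exact hcard
  obtain ⟨em⟩ := Cardinal.le_def D K |>.1 hle
  let d : K → ℕ → ℕ := fun a => (Function.invFun em a : D).1
  have hdom : ∀ f : ℕ → ℕ, ∃ a : K, ∀ᶠ n in atTop, f n ≤ d a n := by
    intro f
    obtain ⟨g, hg, hfg⟩ := hD f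
    obtain ⟨a, ha⟩ := Function.invFun_surjective em.injective ⟨g, hg⟩
    refine ⟨a, ?_⟩
    simp only [d, ha]
    exact hfg
  choose e he1 he2 using fun a : K => exists_dom d (Set.Iic a) (hIic a)
  let x : K → ℕ → Bool := fun a => xx (e a)
  have key : ∀ g : ℕ → ℕ, StrictMono g → ∃ b : K, ∀ a, b ≤ a → ∀ v : Bool,
      ¬ ∀ k, ∃ n, g k ≤ n ∧ n < g (k + 1) ∧ x a n = v := by
    intro g hg
    obtain ⟨b, hb⟩ := hdom (fun n => g (n + 1))
    refine ⟨b, fun a hab v => ?_⟩
    exact avoid (e a) (d b) g (he1 a) hg hb (he2 a b hab) v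
  refine ⟨Set.range x, ?_, ?_⟩
  · intro hc
    -- an uncountable fibre
    have : ∃ y ∈ Set.range x, ¬ {a : K | x a = y}.Countable := by
      by_contra hcon
      push Not at hcon
      have h1 : (⋃ y ∈ Set.range x, {a : K | x a = y}).Countable := hc.biUnion hcon
      have h2 : (⋃ y ∈ Set.range x, {a : K | x a = y}) = Set.univ := by
        ext a
        simp
      rw [h2] at h1
      exact hKu (Set.countable_univ_iff.1 h1)
    obtain ⟨y, ⟨a0, ha0⟩, hy⟩ := this
    have hm := pp_lt (e a0) (he1 a0)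
    let g : ℕ → ℕ := fun k => pp (e a0) (2 * k)
    have hg : StrictMono g := by
      intro i j hij
      exact hm (by omega)
    obtain ⟨b, hb⟩ := key g hg
    refine hy ((hIio b).mono ?_)
    intro a ha
    by_contra hab
    refine hb a (not_lt.1 hab) true ?_
    intro k
    refine ⟨pp (e a0) (2 * k), le_rfl, hg (Nat.lt_succ_self k), ?_⟩
    have h1 : x a = x a0 := (show x a = y from ha).trans ha0.symm
    rw [h1]
    exact (xx_eq (e a0) (he1 a0) (2 * k) _ le_rfl (hm (Nat.lt_succ_self _))).2 (by simp)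
  · intro g hg b
    obtain ⟨c, hc⟩ := key g hg
    refine ((hIio c).image x).mono ?_
    rintro _ ⟨⟨a, rfl⟩, ha⟩
    refine ⟨a, ?_, rfl⟩
    by_contra hab
    exact hc a (not_lt.1 hab) b ha

end Pool.Agent.H33.SL.BIU
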