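import Pool.Agent.H20.SL.Defs2

set_option autoImplicit false

open Topology Ordinal Cardinal Filter

namespace Pool.Agent.H33.SL.CAN

open Pool.Agent.H20.SL

/-- nodes of the Cantor tree with the branches in `X` -/
@[ext] structure Nd (X : Set (ℕ → Bool)) : Type where
  l : ℕ∞
  s : ℕ → Bool
  cut : ∀ n : ℕ, l ≤ n → s n = false
  top : l = ⊤ → s ∈ X

variable {X : Set (ℕ → Bool)}

instance : PartialOrder (Nd X) where
  le p q := p.l ≤ q.l ∧ ∀ n : ℕ, (n : ℕ∞) < p.l → p.s n = q.s n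
  le_refl p := ⟨le_rfl, fun _ _ => rfl⟩
  le_trans p q r h1 h2 := ⟨h1.1.trans h2.1, fun n hn => (h1.2 n hn).trans
    (h2.2 n (lt_of_lt_of_le hn h1.1))⟩
  le_antisymm p q h1 h2 := by
    have hl : p.l = q.l := le_antisymm h1.1 h2.1
    refine Nd.ext hl ?_
    funext n
    rcases lt_or_ge (n : ℕ∞) p.l with hn | hn
    · exact h1.2 n hn
    · rw [p.cut n hn, q.cut n (hl ▸ hn)]

theorem le_def (p q : Nd X) :
    p ≤ q ↔ p.l ≤ q.l ∧ ∀ n : ℕ, (n : ℕ∞) < p.l → p.s n = q.s n := Iff.rfl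

theorem l_lt {p q : Nd X} (h : p < q) : p.l < q.l := by
  refine lt_of_le_of_ne h.le.1 fun he => ?_
  refine h.not_ge ⟨he.ge, fun n hn => ?_⟩
  exact (h.le.2 n (he ▸ hn)).symm

theorem lt_of_le_l {p q : Nd X} (h : p ≤ q) (hl : p.l < q.l) : p < q :=
  lt_of_le_of_ne h fun he => hl.ne (by rw [he])

/-- truncation of a sequence -/
def tr (X : Set (ℕ → Bool)) (f : ℕ → Bool) (n : ℕ) : Nd X where
  l := n
  s := fun i => if i < n then f i else false
  cut := fun i hi => by
    have : ¬ i < n := by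
      have := ENat.natCast_le_natCast.1 hi
      omega
    simp [this]
  top := fun h => absurd h (ENat.natCast_ne_top n)

@[simp] theorem tr_l (f : ℕ → Bool) (n : ℕ) : (tr X f n).l = n := rfl

theorem tr_s (f : ℕ → Bool) (n i : ℕ) (h : i < n) : (tr X f n).s i = f i := by
  simp [tr, h]

theorem tr_le {q : Nd X} {n : ℕ} (h : (n : ℕ∞) ≤ q.l) : tr X q.s n ≤ q := by
  refine ⟨h, fun i hi => ?_⟩
  exact tr_s _ _ _ (ENat.natCast_lt_natCast.1 hi)

theorem eq_tr {p q : Nd X} (h : p ≤ q) {n : ℕ} (hn : p.l = n) : p = tr X q.s n := by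
  refine Nd.ext hn ?_
  funext i
  by_cases hi : i < n
  · rw [tr_s _ _ _ hi]
    exact h.2 i (by rw [hn]; exact ENat.natCast_lt_natCast.2 hi)
  · rw [p.cut i (by rw [hn]; exact ENat.natCast_le_natCast.2 (not_lt.1 hi))]
    simp [tr, hi]

theorem tr_le_tr (f : ℕ → Bool) {m n : ℕ} (h : m ≤ n) : tr X f m ≤ tr X f n := by
  refine ⟨ENat.natCast_le_natCast.2 h, fun i hi => ?_⟩
  have hi' : i < m := ENat.natCast_lt_natCast.1 hi
  rw [tr_s _ _ _ hi', tr_s _ _ _ (lt_of_lt_of_le hi' h)]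

theorem tr_lt_tr (f : ℕ → Bool) {m n : ℕ} (h : m < n) : tr X f m < tr X f n :=
  lt_of_le_l (tr_le_tr f h.le) (ENat.natCast_lt_natCast.2 h)

/-- the branches -/
def tp (x : ℕ → Bool) (hx : x ∈ X) : Nd X where
  l := ⊤
  s := x
  cut := fun n h => absurd h (by simp)
  top := fun _ => hx

theorem comparable {a b t : Nd X} (ha : a ≤ t) (hb : b ≤ t) (h : a.l ≤ b.l) : a ≤ b :=
  ⟨h, fun n hn => (ha.2 n hn).trans (hb.2 n (lt_of_lt_of_le hn h)).symm⟩

theorem isTree : IsTree (Nd X) where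
  comp := by
    intro a b t ha hb
    rcases le_total a.l b.l with h | h
    · exact Or.inl (comparable ha hb h)
    · exact Or.inr (comparable hb ha h)
  wf := Subrelation.wf (fun {a b} h => l_lt h)
    (InvImage.wf (fun p : Nd X => p.l) (wellFounded_lt : WellFounded ((· < ·) : ℕ∞ → ℕ∞ → Prop)))

theorem l_fin_of_lt {s t : Nd X} (h : s < t) : ∃ k : ℕ, s.l = k ∧ (k : ℕ∞) < t.l := by
  have h1 := l_lt h
  obtain ⟨k, hk⟩ := ENat.ne_top_iff_exists.1 (ne_top_of_lt h1)
  exact ⟨k, hk.symm, by rw [hk]; exact h1⟩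

theorem haus : Haus (Nd X) := by
  intro x y hx hxy
  have hxt : x.l = ⊤ := by
    by_contra hne
    obtain ⟨m, hm⟩ := ENat.ne_top_iff_exists.1 hne
    obtain ⟨s, hs⟩ := hx.1
    obtain ⟨k, hk1, hk2⟩ := l_fin_of_lt hs
    rw [← hm] at hk2
    have hkm : k < m := ENat.natCast_lt_natCast.1 hk2
    have h1 : tr X x.s (m - 1) < x := by
      refine lt_of_le_l (tr_le ?_) ?_
      · rw [← hm]
        exact ENat.natCast_le_natCast.2 (by omega)
      · rw [← hm, tr_l]
        exact ENat.natCast_lt_natCast.2 (by omega)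
    obtain ⟨s', hs1, hs2⟩ := hx.2 _ h1
    obtain ⟨j, hj1, hj2⟩ := l_fin_of_lt hs2
    have h2 := l_lt hs1
    rw [hj1, tr_l] at h2
    rw [← hm] at hj2
    have h3 := ENat.natCast_lt_natCast.1 h2
    have h4 := ENat.natCast_lt_natCast.1 hj2
    omega
  have hk : ∀ k : ℕ, tr X x.s k < y := by
    intro k
    rw [← hxy]
    refine lt_of_le_l (tr_le (by rw [hxt]; exact le_top)) ?_
    rw [hxt, tr_l]
    exact ENat.natCast_lt_top k
  have hyt : y.l = ⊤ := by
    by_contra hne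
    obtain ⟨m, hm⟩ := ENat.ne_top_iff_exists.1 hne
    have := l_lt (hk m)
    rw [tr_l, ← hm] at this
    exact lt_irrefl _ this
  refine Nd.ext (hxt.trans hyt.symm) ?_
  funext n
  have h1 := (hk (n + 1)).le.2 n (by rw [tr_l]; exact ENat.natCast_lt_natCast.2 (Nat.lt_succ_self n))
  rw [tr_s _ _ _ (Nat.lt_succ_self n)] at h1
  exact h1

theorem iic_countable (t : Nd X) : (Set.Iic t).Countable := by
  have h1 : Set.InjOn (fun p : Nd X => p.l) (Set.Iic t) := by
    intro a ha b hb hab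
    exact le_antisymm (comparable ha hb (le_of_eq hab)) (comparable hb ha (le_of_eq hab.symm))
  exact Set.MapsTo.countable_of_injOn (Set.mapsTo_univ _ _) h1 (Set.to_countable _)

/-- the levels are finite -/
theorem level_finite (n : ℕ) : {p : Nd X | p.l = n}.Finite := by
  have h1 : Set.InjOn (fun (p : Nd X) (i : Fin n) => p.s i) {p : Nd X | p.l = n} := by
    intro a ha b hb hab
    refine Nd.ext ((show a.l = n from ha).trans (show b.l = n from hb).symm) ?_
    funext i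
    by_cases hi : i < n
    · exact congrFun hab ⟨i, hi⟩
    · have hi' : (n : ℕ∞) ≤ i := ENat.natCast_le_natCast.2 (not_lt.1 hi)
      rw [a.cut i (by rw [show a.l = n from ha]; exact hi'),
        b.cut i (by rw [show b.l = n from hb]; exact hi')]
  exact Set.Finite.of_injOn (Set.mapsTo_univ _ _) h1 Set.finite_univ

theorem level_le_finite (n : ℕ) : {p : Nd X | p.l ≤ n}.Finite := by
  have h1 : {p : Nd X | p.l ≤ n} ⊆ ⋃ k ∈ Set.Iic n, {p : Nd X | p.l = k} := by
    intro p hp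
    have hp' : p.l ≤ n := hp
    obtain ⟨k, hk⟩ := ENat.ne_top_iff_exists.1 (ne_top_of_le_ne_top (ENat.natCast_ne_top n) hp')
    rw [← hk] at hp'
    exact Set.mem_biUnion (show k ∈ Set.Iic n from ENat.natCast_le_natCast.1 hp') hk.symm
  exact ((Set.finite_Iic n).biUnion fun k _ => level_finite k).subset h1

theorem fin_countable : {p : Nd X | p.l ≠ ⊤}.Countable := by
  have h1 : {p : Nd X | p.l ≠ ⊤} ⊆ ⋃ k : ℕ, {p : Nd X | p.l = k} := by
    intro p hp
    obtain ⟨k, hk⟩ := ENat.ne_top_iff_exists.1 hp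
    exact Set.mem_iUnion.2 ⟨k, hk.symm⟩
  exact (Set.countable_iUnion fun k => (level_finite k).countable).mono h1

theorem not_fb (hX : ¬ X.Countable) : ¬ FB (Nd X) := by
  intro h
  have h1 := h Set.univ (fun _ _ _ _ => trivial) ?_ ?_
  · apply hX
    have h2 : Set.InjOn (fun x : X => tp x.1 x.2) Set.univ := by
      intro a _ b _ hab
      exact Subtype.ext (congrArg Nd.s hab)
    have h3 := Set.MapsTo.countable_of_injOn (Set.mapsTo_univ _ _) h2 h1
    exact Set.countable_coe_iff.1 (Set.countable_univ_iff.1 h3)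
  · intro w _
    by_cases hw : w.l = ⊤
    · have : {u | w ⋖ u ∧ u ∈ (Set.univ : Set (Nd X))} = ∅ := by
        rw [Set.eq_empty_iff_forall_notMem]
        intro u hu
        have := l_lt hu.1.1
        rw [hw] at this
        exact absurd this (by simp)
      rw [this]
      exact Set.finite_empty
    · obtain ⟨n, hn⟩ := ENat.ne_top_iff_exists.1 hw
      refine (level_finite (n + 1)).subset ?_
      rintro u ⟨hu, _⟩
      have h2 := l_lt hu.1
      rw [← hn] at h2
      have h3 : ((n + 1 : ℕ) : ℕ∞) ≤ u.l := by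
        have := Order.add_one_le_of_lt h2
        exact_mod_cast this
      by_contra hne
      have h4 : ((n + 1 : ℕ) : ℕ∞) < u.l := lt_of_le_of_ne h3 fun he => hne he.symm
      have h5 : tr X u.s (n + 1) < u := lt_of_le_l (tr_le h3) h4
      have h6 : w < tr X u.s (n + 1) := by
        have h7 : w.l < (tr X u.s (n + 1)).l := by
          rw [tr_l, ← hn]
          exact ENat.natCast_lt_natCast.2 (Nat.lt_succ_self n)
        exact lt_of_le_l (comparable hu.1.le (tr_le h3) h7.le) h7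
      exact hu.2 h6 h5
  · refine (level_finite 0).subset ?_
    rintro m ⟨_, hm⟩
    by_contra hne
    have h1 : ((0 : ℕ) : ℕ∞) < m.l := by
      rcases eq_or_lt_of_le (zero_le (a := m.l)) with h | h
      · exact absurd h.symm (by exact_mod_cast hne)
      · exact_mod_cast h
    have h2 : tr X m.s 0 < m := lt_of_le_l (tr_le h1.le) h1
    exact h2.not_ge (hm h2.le)

/-- the nodes ending with the value `b` -/
def AA (X : Set (ℕ → Bool)) (b : Bool) : Set (Nd X) :=
  {p | p.l = 0 ∨ p.l = ⊤ ∨ ∃ m : ℕ, p.l = (m + 1 : ℕ) ∧ p.s m = b}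

theorem closed_AA (b : Bool) : IsClosed (X := TT (Nd X)) (AA X b) := by
  rw [← isOpen_compl_iff]
  intro t ht
  have ht' : (t : Nd X) ∉ AA X b := ht
  have h0 : (t : Nd X).l ≠ 0 := fun h => ht' (Or.inl h)
  have h1 : (t : Nd X).l ≠ ⊤ := fun h => ht' (Or.inr (Or.inl h))
  obtain ⟨n, hn⟩ := ENat.ne_top_iff_exists.1 h1
  have hn0 : n ≠ 0 := by
    rintro rfl
    exact h0 hn.symm
  obtain ⟨m, rfl⟩ := Nat.exists_eq_succ_of_ne_zero hn0
  refine ⟨{tr X (t : Nd X).s m}, ?_, ?_⟩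
  · intro s hs
    rw [Finset.mem_singleton] at hs
    subst hs
    have h2 : ((m : ℕ) : ℕ∞) < (t : Nd X).l := by
      rw [← hn]
      exact ENat.natCast_lt_natCast.2 (Nat.lt_succ_self m)
    exact lt_of_le_l (tr_le h2.le) h2
  · intro x hx hxs
    have h2 := hxs _ (Finset.mem_singleton_self _)
    have hxt : x = t := by
      by_contra hne
      have hlt : x < t := lt_of_le_of_ne hx hne
      apply h2
      obtain ⟨k, hk1, hk2⟩ := l_fin_of_lt hlt
      have h4 : x.l ≤ (tr X (t : Nd X).s m).l := by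
        rw [tr_l, hk1]
        rw [← hn] at hk2
        have h5 : k < m + 1 := ENat.natCast_lt_natCast.1 hk2
        exact ENat.natCast_le_natCast.2 (Nat.lt_succ_iff.1 h5)
      refine comparable hx (tr_le ?_) h4
      rw [← hn]
      exact ENat.natCast_le_natCast.2 (Nat.le_succ m)
    rw [hxt]
    exact ht

theorem cover (t : Nd X) : t ∈ AA X true ∨ t ∈ AA X false := by
  by_cases h0 : t.l = 0
  · exact Or.inl (Or.inl h0)
  by_cases h1 : t.l = ⊤
  · exact Or.inl (Or.inr (Or.inl h1))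
  obtain ⟨n, hn⟩ := ENat.ne_top_iff_exists.1 h1
  have hn0 : n ≠ 0 := by
    rintro rfl
    exact h0 hn.symm
  obtain ⟨m, rfl⟩ := Nat.exists_eq_succ_of_ne_zero hn0
  cases hb : t.s m
  · exact Or.inr (Or.inr (Or.inr ⟨m, hn.symm, hb⟩))
  · exact Or.inl (Or.inr (Or.inr ⟨m, hn.symm, hb⟩))

/-- sequences which are eventually constant are countably many -/
theorem ev_countable (c : Bool) : {x : ℕ → Bool | ∃ N, ∀ n, N ≤ n → x n = c}.Countable := by
  have h1 : {x : ℕ → Bool | ∃ N, ∀ n, N ≤ n → x n = c} =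
      ⋃ N, {x : ℕ → Bool | ∀ n, N ≤ n → x n = c} := by
    ext x
    simp
  rw [h1]
  refine Set.countable_iUnion fun N => ?_
  have h2 : Set.InjOn (fun (x : ℕ → Bool) (i : Fin N) => x i)
      {x : ℕ → Bool | ∀ n, N ≤ n → x n = c} := by
    intro a ha b hb hab
    funext i
    by_cases hi : i < N
    · exact congrFun hab ⟨i, hi⟩
    · rw [ha i (not_lt.1 hi), hb i (not_lt.1 hi)]
  exact (Set.Finite.of_injOn (Set.mapsTo_univ _ _) h2 Set.finite_univ).countable

theorem root_mem (f : ℕ → Bool) (b : Bool) : tr X f 0 ∈ AA X b := Or.inl (by simp)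

theorem tr_mem {f : ℕ → Bool} {b : Bool} {m : ℕ} (h : f m = b) : tr X f (m + 1) ∈ AA X b := by
  refine Or.inr (Or.inr ⟨m, rfl, ?_⟩)
  rw [tr_s _ _ _ (Nat.lt_succ_self m)]
  exact h

/-- a sequence which grows faster than `h` -/
def gg (h : ℕ → ℕ) : ℕ → ℕ
  | 0 => 0
  | k + 1 => max (gg h k + 1) (h (gg h k))

theorem exists_least {P Q : ℕ → Prop} (h : ∃ n, P n ∧ Q n) :
    ∃ m, (P m ∧ Q m) ∧ ∀ j, P j → Q j → m ≤ j := by
  classical
  exact ⟨Nat.find h, Nat.find_spec h, fun j h1 h2 => Nat.find_min' h ⟨h1, h2⟩⟩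

theorem fb_AA (hX : BiUnb X) (b : Bool) : FB (AA X b) := by
  classical
  intro W hW hcov hmin
  -- bounds for the covers
  have hh : ∀ n : ℕ, ∃ h : ℕ, ∀ w ∈ W, (w : Nd X).l ≤ n → ∀ u ∈ W, w ⋖ u → ∀ k : ℕ,
      (u : Nd X).l = k → k ≤ h := by
    intro n
    have h1 : {w : AA X b | w ∈ W ∧ (w : Nd X).l ≤ n}.Finite := by
      refine Set.Finite.of_injOn (f := fun w : AA X b => (w : Nd X)) (t := {p : Nd X | p.l ≤ n})
        ?_ ?_ (level_le_finite n)
      · intro w hw
        exact hw.2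
      · intro a _ c _ hac
        exact Subtype.ext hac
    have h2 : (⋃ w ∈ {w : AA X b | w ∈ W ∧ (w : Nd X).l ≤ n},
        {u | w ⋖ u ∧ u ∈ W}).Finite := h1.biUnion fun w hw => hcov w hw.1
    have h3 : {k : ℕ | ∃ u ∈ (⋃ w ∈ {w : AA X b | w ∈ W ∧ (w : Nd X).l ≤ n},
        {u | w ⋖ u ∧ u ∈ W}), (u : Nd X).l = k}.Finite := by
      refine (h2.image (fun u : AA X b => (u : Nd X).l.toNat)).subset ?_
      rintro k ⟨u, hu, hk⟩
      refine ⟨u, hu, ?_⟩
      show (u : Nd X).l.toNat = k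
      rw [hk]
      simp
    obtain ⟨h, hh⟩ := h3.bddAbove
    refine ⟨h, fun w hw hwn u hu hwu k hk => hh ⟨u, ?_, hk⟩⟩
    exact Set.mem_biUnion (show w ∈ {w : AA X b | w ∈ W ∧ (w : Nd X).l ≤ n} from ⟨hw, hwn⟩)
      ⟨hwu, hu⟩
  choose h hh using hh
  obtain ⟨g, hg1⟩ : ∃ g : ℕ → ℕ, ∀ k, g (k + 1) = max (g k + 1) (h (g k)) :=
    ⟨gg h, fun k => rfl⟩
  have hg : StrictMono g := strictMono_nat_of_lt_succ fun k => by
    rw [hg1]
    exact lt_of_lt_of_le (Nat.lt_succ_self _) (le_max_left _ _)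
  -- the branches in `W`
  have hbr : ∀ t : AA X b, t ∈ W → (t : Nd X).l = ⊤ →
      (∀ N, ∃ n, N ≤ n ∧ (t : Nd X).s n = b) →
      ∀ k, ∃ n, g k ≤ n ∧ n < g (k + 1) ∧ (t : Nd X).s n = b := by
    intro t ht htop hinf k
    set x := (t : Nd X).s with hx
    have hex : ∃ n, g k ≤ n ∧ x n = b := hinf (g k)
    obtain ⟨m, ⟨hm1, hm2⟩, hmin'⟩ : ∃ m, (g k ≤ m ∧ x m = b) ∧
        ∀ j, g k ≤ j → x j = b → m ≤ j :=
      exists_least hex
    have hbelow : ∀ j : ℕ, tr X x j ≤ (t : Nd X) := fun j => tr_le (by rw [htop]; exact le_top)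
    -- the largest node of the set below `t` with length at most `g k`
    obtain ⟨w, hw1, hw2, hw3⟩ : ∃ j : ℕ, j ≤ g k ∧ tr X x j ∈ AA X b ∧
        ∀ i, j < i → i ≤ g k → ¬ ∃ i', i = i' + 1 ∧ x i' = b := by
      by_cases hne : ∃ i, i + 1 ≤ g k ∧ x i = b
      · have hbdd : ∃ i, i ≤ g k ∧ ∃ i', i = i' + 1 ∧ x i' = b := by
          obtain ⟨i, hi1, hi2⟩ := hne
          exact ⟨i + 1, hi1, i, rfl, hi2⟩
        obtain ⟨i0, hi0⟩ := hbdd
        have hfg := Nat.findGreatest_spec (P := fun i => ∃ i', i = i' + 1 ∧ x i' = b)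
          hi0.1 hi0.2
        refine ⟨Nat.findGreatest (fun i => ∃ i', i = i' + 1 ∧ x i' = b) (g k),
          Nat.findGreatest_le _, ?_, ?_⟩
        · obtain ⟨i', hi1, hi2⟩ := hfg
          rw [hi1]
          exact tr_mem hi2
        · intro i hi1 hi2
          exact Nat.findGreatest_is_greatest hi1 hi2
      · refine ⟨0, Nat.zero_le _, root_mem _ _, ?_⟩
        rintro i _ hi ⟨i', rfl, hi'⟩
        exact hne ⟨i', hi, hi'⟩
    have hm3 : tr X x (m + 1) ∈ AA X b := tr_mem hm2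
    have hwm : w < m + 1 := by omega
    have hwW : (⟨tr X x w, hw2⟩ : AA X b) ∈ W := hW t ht _ (hbelow w)
    have hmW : (⟨tr X x (m + 1), hm3⟩ : AA X b) ∈ W := hW t ht _ (hbelow (m + 1))
    have hcv : (⟨tr X x w, hw2⟩ : AA X b) ⋖ ⟨tr X x (m + 1), hm3⟩ := by
      refine ⟨tr_lt_tr x hwm, ?_⟩
      rintro ⟨c, hc⟩ hc1 hc2
      have hc1' : tr X x w < c := hc1
      have hc2' : c < tr X x (m + 1) := hc2
      obtain ⟨j, hj1, hj2⟩ := l_fin_of_lt hc2'
      have hj3 := l_lt hc1'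
      rw [hj1, tr_l] at hj3
      rw [tr_l] at hj2
      have hj4 : w < j := ENat.natCast_lt_natCast.1 hj3
      have hj5 : j < m + 1 := ENat.natCast_lt_natCast.1 hj2
      have hcx : c = tr X x j := eq_tr (hc2'.le.trans (hbelow (m + 1))) hj1
      rcases hc with h1 | h1 | ⟨i, h1, h2⟩
      · rw [hj1] at h1
        have : j = 0 := by exact_mod_cast h1
        omega
      · rw [hj1] at h1
        exact absurd h1 (ENat.natCast_ne_top j)
      · rw [hj1] at h1
        have hji : j = i + 1 := ENat.natCast_inj.1 h1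
        have h3 : x i = b := by
          rw [hcx, tr_s _ _ _ (by omega)] at h2
          exact h2
        by_cases hjg : j ≤ g k
        · exact hw3 j hj4 hjg ⟨i, hji, h3⟩
        · have := hmin' i (by omega) h3
          omega
    have hfin := hh (g k) _ hwW (by
      show (tr X x w).l ≤ _
      rw [tr_l]
      exact ENat.natCast_le_natCast.2 hw1) _ hmW hcv (m + 1) rfl
    refine ⟨m, hm1, ?_, hm2⟩
    rw [hg1]
    exact lt_of_lt_of_le (Nat.lt_succ_self m) (hfin.trans (le_max_right _ _))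
  -- countability
  have hc1 : {w : AA X b | (w : Nd X).l ≠ ⊤}.Countable := by
    refine Set.MapsTo.countable_of_injOn (f := fun w : AA X b => (w : Nd X))
      (t := {p : Nd X | p.l ≠ ⊤}) (fun w hw => hw) ?_ fin_countable
    intro a _ c _ hac
    exact Subtype.ext hac
  have hc2 : {w : AA X b | w ∈ W ∧ (w : Nd X).l = ⊤}.Countable := by
    have hcs : ({x : ℕ → Bool | ∃ N, ∀ n, N ≤ n → x n = !b} ∪
        {x | x ∈ X ∧ ∀ k, ∃ n, g k ≤ n ∧ n < g (k + 1) ∧ x n = b}).Countable :=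
      (ev_countable _).union (hX.2 g hg b)
    refine Set.MapsTo.countable_of_injOn (f := fun w : AA X b => (w : Nd X).s) ?_ ?_ hcs
    · rintro w ⟨hw1, hw2⟩
      by_cases hinf : ∀ N, ∃ n, N ≤ n ∧ (w : Nd X).s n = b
      · exact Or.inr ⟨(w : Nd X).top hw2, hbr w hw1 hw2 hinf⟩
      · left
        push Not at hinf
        obtain ⟨N, hN⟩ := hinf
        refine ⟨N, fun n hn => ?_⟩
        have := hN n hn
        show (w : Nd X).s n = !b
        cases hb : (w : Nd X).s n <;> cases b <;> simp_all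
    · rintro a ⟨_, ha⟩ c ⟨_, hc⟩ hac
      exact Subtype.ext (Nd.ext (ha.trans hc.symm) hac)
  refine (hc1.union hc2).mono ?_
  intro w hw
  by_cases h : (w : Nd X).l = ⊤
  · exact Or.inr ⟨hw, h⟩
  · exact Or.inl h

theorem can : T_CAN := by
  intro X hX
  exact ⟨Nd X, inferInstance, AA X true, AA X false, isTree, haus, iic_countable,
    closed_AA true, closed_AA false, cover, fb_AA hX true, fb_AA hX false, not_fb hX.1⟩

end Pool.Agent.H33.SL.CAN
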