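import Pool.Agent.H29.SL.Targets

/-!
Module LA of board so_modules (MP_5b3ee2_nt): the cubic lemma, `c = 1`.
-/

set_option autoImplicit false

namespace Pool.Agent.H33.SL

open Pool.Agent.H29.SL

theorem la_cast {d X : ℕ} (h : d ∣ X ^ 2 + 1 - X) : (d : ℤ) ∣ (X : ℤ) ^ 2 + 1 - X := by
  have hle : X ≤ X ^ 2 + 1 := by nlinarith
  have h1 : ((X ^ 2 + 1 - X : ℕ) : ℤ) = (X : ℤ) ^ 2 + 1 - X := by
    rw [Nat.cast_sub hle]
    push_cast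
    ring
  rw [← h1]
  exact_mod_cast h

theorem la_cast' {d X : ℕ} (h : d ∣ X ^ 2 + X + 1) : (d : ℤ) ∣ (X : ℤ) ^ 2 + X + 1 := by
  exact_mod_cast h

theorem la_bound {p u : ℕ} (hu : 2 ≤ u) (h : p ≤ u ^ 2 + u + 1) : p ^ 3 ≤ u ^ 10 := by
  have h1 : 4 * (u ^ 2 + u + 1) ≤ 7 * u ^ 2 := by nlinarith
  have h2 : p ^ 3 ≤ (u ^ 2 + u + 1) ^ 3 := Nat.pow_le_pow_left h 3
  have h3 : (4 * (u ^ 2 + u + 1)) ^ 3 ≤ (7 * u ^ 2) ^ 3 := Nat.pow_le_pow_left h1 3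
  have h4 : 2 ^ 4 ≤ u ^ 4 := Nat.pow_le_pow_left hu 4
  have h5 : 64 * (u ^ 2 + u + 1) ^ 3 ≤ 343 * u ^ 6 := by
    calc 64 * (u ^ 2 + u + 1) ^ 3 = (4 * (u ^ 2 + u + 1)) ^ 3 := by ring
      _ ≤ (7 * u ^ 2) ^ 3 := h3
      _ = 343 * u ^ 6 := by ring
  have h6 : 343 * u ^ 6 ≤ 64 * u ^ 10 := by
    calc 343 * u ^ 6 ≤ 64 * 2 ^ 4 * u ^ 6 := Nat.mul_le_mul_right _ (by norm_num)
      _ ≤ 64 * u ^ 4 * u ^ 6 :=
        Nat.mul_le_mul_right _ (Nat.mul_le_mul_left _ h4)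
      _ = 64 * u ^ 10 := by ring
  omega

theorem pf_LA : T_LA := by
  intro p u X hp hp7 hX h
  have hXZ : (X : ℤ) = (p - 1) * u := by
    rw [hX]
    push_cast [Nat.cast_sub (by omega : 1 ≤ p)]
    ring
  have hu0 : (0 : ℤ) ≤ u := Int.natCast_nonneg u
  have key : (p : ℤ) ∣ (u : ℤ) ^ 2 - u + 1 ∨ (p : ℤ) ∣ (u : ℤ) ^ 2 + u + 1 := by
    rcases h with h | h
    · left
      have h1 := la_cast' h
      have h2 : (u : ℤ) ^ 2 - u + 1 = ((X : ℤ) ^ 2 + X + 1) - p * (p * u ^ 2 - 2 * u ^ 2 + u) := by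
        rw [hXZ]
        ring
      rw [h2]
      exact dvd_sub h1 (Dvd.intro _ rfl)
    · right
      have h1 := la_cast h
      have h2 : (u : ℤ) ^ 2 + u + 1 = ((X : ℤ) ^ 2 + 1 - X) - p * (p * u ^ 2 - 2 * u ^ 2 - u) := by
        rw [hXZ]
        ring
      rw [h2]
      exact dvd_sub h1 (Dvd.intro _ rfl)
  have hle : (p : ℤ) ≤ (u : ℤ) ^ 2 + u + 1 := by
    rcases key with h1 | h1
    · have h2 := Int.le_of_dvd (by nlinarith) h1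
      linarith
    · exact Int.le_of_dvd (by nlinarith) h1
  have hle' : p ≤ u ^ 2 + u + 1 := by exact_mod_cast hle
  have hu2 : 2 ≤ u := by
    by_contra h3
    have h4 : u = 0 ∨ u = 1 := by omega
    rcases h4 with rfl | rfl
    · omega
    · omega
  exact la_bound hu2 hle'

end Pool.Agent.H33.SL
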