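import Pool.Agent.H29.SL.Targets

/-!
Module LC of board so_modules (MP_5b3ee2_nt): the cubic lemma, `c = 3`.
-/

set_option autoImplicit false

namespace Pool.Agent.H33.SL

open Pool.Agent.H29.SL

theorem lc_cast {d X : ℕ} (h : d ∣ X ^ 2 + 1 - X) : (d : ℤ) ∣ (X : ℤ) ^ 2 + 1 - X := by
  have hle : X ≤ X ^ 2 + 1 := by nlinarith
  have h1 : ((X ^ 2 + 1 - X : ℕ) : ℤ) = (X : ℤ) ^ 2 + 1 - X := by
    rw [Nat.cast_sub hle]
    push_cast
    ring
  rw [← h1]
  exact_mod_cast h

theorem lc_cast' {d X : ℕ} (h : d ∣ X ^ 2 + X + 1) : (d : ℤ) ∣ (X : ℤ) ^ 2 + X + 1 := by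
  exact_mod_cast h

/-- the common part: `u > P` or `P u² + s u = P² + 3 P + 3` -/
theorem lc_main (P u s : ℤ) (hP : 6 ≤ P) (hu : 0 ≤ u) (hs : s = 1 ∨ s = -1)
    (h : (P + 1) ^ 3 ∣ (P * u) ^ 2 + s * (P * u) + 1) :
    P + 1 ≤ u ∨ P * (u ^ 2 - P - 3) = 3 - s * u := by
  obtain ⟨w, hw⟩ := h
  have hPu : 0 ≤ P * u := by positivity
  have hF0 : 0 < (P * u) ^ 2 + s * (P * u) + 1 := by
    rcases hs with rfl | rfl <;> nlinarith
  have hF1 : (P * u) ^ 2 + s * (P * u) + 1 ≤ (P * u + 1) ^ 2 := by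
    rcases hs with rfl | rfl <;> nlinarith
  have hw0 : 0 < w := by
    by_contra h1
    push Not at h1
    have h2 : (P + 1) ^ 3 * w ≤ 0 := mul_nonpos_of_nonneg_of_nonpos (by positivity) h1
    linarith
  obtain ⟨t, ht⟩ : ∃ t, t = P * u ^ 2 + s * u - w * (P ^ 2 + 3 * P + 3) := ⟨_, rfl⟩
  have hwt : w = 1 + P * t := by
    rw [ht]
    linear_combination -hw
  have ht0 : 0 ≤ t := by
    by_contra h1
    push Not at h1
    have h2 : P * t ≤ P * (-1) := mul_le_mul_of_nonneg_left (by linarith) (by linarith)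
    linarith
  rcases ht0.lt_or_eq with h1 | h1
  · left
    have hwP : P + 1 ≤ w := by
      have : P * 1 ≤ P * t := mul_le_mul_of_nonneg_left (by linarith) (by linarith)
      linarith
    by_contra hc
    push Not at hc
    have huP : u ≤ P := by linarith
    have h2 : P * u ≤ P * P := mul_le_mul_of_nonneg_left huP (by linarith)
    have h3 : (P * u + 1) ^ 2 ≤ (P * P + 1) ^ 2 :=
      pow_le_pow_left₀ (by linarith) (by linarith) 2
    have h4 : (P + 1) ^ 3 * (P + 1) ≤ (P + 1) ^ 3 * w :=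
      mul_le_mul_of_nonneg_left hwP (by positivity)
    nlinarith [sq_nonneg P]
  · right
    have h2 : w = 1 := by rw [hwt, ← h1]; ring
    rw [h2] at ht
    rw [← h1] at ht
    linear_combination -ht

theorem lc_neg (P u : ℤ) (hP : 6 ≤ P) (hu : 0 ≤ u) (h : P * (u ^ 2 - P - 3) = 3 + u) :
    False := by
  obtain ⟨m, hm⟩ : ∃ m, m = u ^ 2 - P - 3 := ⟨_, rfl⟩
  rw [← hm] at h
  have hm1 : 1 ≤ m := by
    by_contra h1
    push Not at h1
    have h2 : P * m ≤ 0 := mul_nonpos_of_nonneg_of_nonpos (by linarith) (by linarith)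
    linarith
  have hu1 : u = P * m - 3 := by linarith
  rw [hu1] at hm
  rcases hm1.lt_or_eq with h1 | h1
  · have hPm : 12 ≤ P * m := by nlinarith
    nlinarith [mul_nonneg (by linarith : (0 : ℤ) ≤ P - 1) (by linarith : (0 : ℤ) ≤ m - 1)]
  · rw [← h1] at hm
    rcases hP.lt_or_eq with h2 | h2
    · nlinarith
    · rw [← h2] at hm
      norm_num at hm

theorem lc_pos (P u : ℤ) (hP : 6 ≤ P) (hu : 0 ≤ u) (h : P * (u ^ 2 - P - 3) = 3 - u) :
    P = 6 ∧ u = 3 := by
  obtain ⟨m, hm⟩ : ∃ m, m = u ^ 2 - P - 3 := ⟨_, rfl⟩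
  rw [← hm] at h
  rcases le_or_gt u 3 with h1 | h1
  · have hm0 : m = 0 := by
      have h2 : 0 ≤ m := by
        by_contra h3
        push Not at h3
        have h4 : P * m ≤ P * (-1) := mul_le_mul_of_nonneg_left (by linarith) (by linarith)
        linarith
      have h3 : m ≤ 0 := by
        by_contra h3
        push Not at h3
        have h4 : P * 1 ≤ P * m := mul_le_mul_of_nonneg_left (by linarith) (by linarith)
        linarith
      linarith
    rw [hm0] at h hm
    have hu3 : u = 3 := by linarith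
    rw [hu3] at hm
    exact ⟨by linarith, hu3⟩
  · exfalso
    have h2 : m ≤ -1 := by
      by_contra h3
      push Not at h3
      have h4 : 0 ≤ P * m := mul_nonneg (by linarith) (by linarith)
      linarith
    have h5 : P * m ≤ P * (-1) := mul_le_mul_of_nonneg_left h2 (by linarith)
    have h6 : P + 3 ≤ u := by linarith
    nlinarith

theorem pf_LC : T_LC := by
  intro p u X hp hp7 hX h
  obtain ⟨P, rfl⟩ : ∃ P, p = P + 1 := ⟨p - 1, by omega⟩
  rw [Nat.add_sub_cancel] at hX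
  have hP6 : (6 : ℤ) ≤ P := by
    have : 6 ≤ P := by omega
    exact_mod_cast this
  have hu0 : (0 : ℤ) ≤ u := Int.natCast_nonneg u
  have hXZ : (X : ℤ) = P * u := by rw [hX]; push_cast; ring
  have big : (P : ℤ) + 1 ≤ u → (P + 1) ^ 9 ≤ 684 * u ^ 10 ∧ (P + 1 ≠ 7 → (P + 1) ^ 9 ≤ u ^ 10) := by
    intro h1
    have h2 : P + 1 ≤ u := by exact_mod_cast h1
    have h3 : (P + 1) ^ 9 ≤ u ^ 10 :=
      (Nat.pow_le_pow_right (by omega) (by norm_num)).trans (Nat.pow_le_pow_left h2 10)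
    exact ⟨by omega, fun _ => h3⟩
  rcases h with h | h
  · have h1 := lc_cast' h
    rw [hXZ] at h1
    push_cast at h1
    rcases lc_main P u 1 hP6 hu0 (Or.inl rfl) (by
      rw [one_mul]
      exact h1) with h2 | h2
    · exact big h2
    · rw [one_mul] at h2
      obtain ⟨h3, h4⟩ := lc_pos P u hP6 hu0 h2
      have h5 : P = 6 := by exact_mod_cast h3
      have h6 : u = 3 := by exact_mod_cast h4
      subst h5
      subst h6
      refine ⟨by norm_num, fun h => absurd rfl h⟩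
  · have h1 := lc_cast h
    rw [hXZ] at h1
    push_cast at h1
    rcases lc_main P u (-1) hP6 hu0 (Or.inr rfl) (by
      have e : ((P : ℤ) * u) ^ 2 + -1 * (P * u) + 1 = (P * u) ^ 2 + 1 - P * u := by ring
      rw [e]
      exact h1) with h2 | h2
    · exact big h2
    · exact absurd (lc_neg P u hP6 hu0 (by rw [h2]; ring)) id

end Pool.Agent.H33.SL
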