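import Pool.Agent.H20.SL.Defs2

set_option autoImplicit false

open Topology Ordinal Cardinal Filter

namespace Pool.Agent.H33.SL.LUS

open Pool.Agent.H20.SL

/-- the set of sequences which take the value `b` on every interval is nowhere dense -/
theorem nwd (g : ℕ → ℕ) (hg : StrictMono g) (b : Bool) :
    IsNowhereDense {x : ℕ → Bool | ∀ k, ∃ n, g k ≤ n ∧ n < g (k + 1) ∧ x n = b} := by
  have hclosed : IsClosed {x : ℕ → Bool | ∀ k, ∃ n, g k ≤ n ∧ n < g (k + 1) ∧ x n = b} := by
    have h1 : {x : ℕ → Bool | ∀ k, ∃ n, g k ≤ n ∧ n < g (k + 1) ∧ x n = b} =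
        ⋂ k, ⋃ n ∈ Set.Ico (g k) (g (k + 1)), {x : ℕ → Bool | x n = b} := by
      ext x
      simp only [Set.mem_setOf_eq, Set.mem_iInter, Set.mem_iUnion, Set.mem_Ico, exists_prop]
      exact forall_congr' fun k => exists_congr fun n => by tauto
    rw [h1]
    refine isClosed_iInter fun k => ?_
    refine Set.Finite.isClosed_biUnion (Set.finite_Ico _ _) fun n _ => ?_
    exact isClosed_eq (continuous_apply n) continuous_const
  rw [IsNowhereDense, hclosed.closure_eq]
  rw [Set.eq_empty_iff_forall_notMem]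
  intro x hx
  rw [mem_interior_iff_mem_nhds] at hx
  rw [nhds_pi, Filter.mem_pi] at hx
  obtain ⟨I, hI, t, ht, hsub⟩ := hx
  obtain ⟨N, hN⟩ : ∃ N, ∀ i ∈ I, i < N := by
    obtain ⟨M, hM⟩ := hI.bddAbove
    exact ⟨M + 1, fun i hi => Nat.lt_succ_of_le (hM hi)⟩
  have hgN : N ≤ g N := hg.le_apply
  let y : ℕ → Bool := fun n => if n < N then x n else !b
  have hy : y ∈ I.pi t := by
    intro i hi
    have : y i = x i := by simp [y, hN i hi]
    rw [this]
    exact mem_of_mem_nhds (ht i)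
  obtain ⟨n, hn1, _, hn2⟩ := hsub hy N
  have : y n = !b := by
    simp only [y]
    rw [if_neg (by omega)]
  rw [this] at hn2
  cases b <;> simp at hn2

theorem lus : T_LUS := by
  intro X hX hnd
  refine ⟨hX, fun g hg b => ?_⟩
  refine (hnd _ (nwd g hg b)).mono ?_
  intro x hx
  exact ⟨hx.1, hx.2⟩

end Pool.Agent.H33.SL.LUS
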